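import Pool.Agent.W_4481e3_q87.GoR
import Pool.Agent.W_4481e3_tab.T3

/-!
Tree s11o3, data 4.
-/

namespace Pool.Agent.W_4481e3_rt.s11o3

open Pool.Agent.W_4481e3_q25.EvR

theorem k81 : ckO Pool.Agent.W_4481e3_tab.T3.tab 15072 19280 268435456 131072 185139 262144 5 1572864 524288 1572864 524288 515354132 515354132 7172260 7172260 268435456 268435456 16777216 16777216 264766 264766 0x100001c00001c201001c01001c02007c202000c03000c2121 = true := by decide +kernel

theorem k84 : ckO Pool.Agent.W_4481e3_tab.T3.tab 15072 19280 268435456 131072 185139 262144 4 1572864 524288 1572864 524288 522526392 493837352 14344520 14344520 268435456 268435456 16777216 16777216 264766 264766 0x100001c00001c01001c01001c121 = true := by decide +kernel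

theorem k86 : ckO Pool.Agent.W_4481e3_tab.T3.tab 15072 19280 268435456 131072 185139 262144 2 1572864 524288 1572864 524288 493837352 508181872 14344520 28689040 268435456 268435456 16777216 16777216 264766 264766 0x100000c00001c2 = true := by decide +kernel

end Pool.Agent.W_4481e3_rt.s11o3
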